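import Pool.Agent.TD.Defs

/-!
# Block T: the order on Berkovich spectra, elementary facts (MP_90358a_ag)
-/

open scoped Topology

namespace Pool.Agent.TD

namespace Ber

variable {K A B : Type} [NormedField K] [CommRing A] [Algebra K A] [CommRing B] [Algebra K B]

@[ext] theorem ext_v {z w : Ber K A} (h : ∀ a, z.v a = w.v a) : z = w := by
  cases z; cases w
  simp only [Ber.mk.injEq]
  exact funext h

theorem v_injective : Function.Injective (Ber.v : Ber K A → A → ℝ) :=
  fun _ _ h => ext_v (congrFun h)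

/-- `z ≤ e` iff `|a|_z ≤ |a|_e` for all `a`. -/
instance : PartialOrder (Ber K A) := PartialOrder.lift Ber.v v_injective

theorem le_def {z e : Ber K A} : z ≤ e ↔ ∀ a, z.v a ≤ e.v a := Iff.rfl

theorem zero (z : Ber K A) : z.v 0 = 0 := by
  have h := z.ext 0
  simpa using h

theorem neg (z : Ber K A) (a : A) : z.v (-a) = z.v a := by
  have h1 : z.v (-1 : A) = 1 := by
    have h := z.ext (-1)
    simpa using h
  rw [← neg_one_mul, z.mul, h1, one_mul]

theorem sub (z : Ber K A) (a b : A) : z.v (a - b) ≤ max (z.v a) (z.v b) := by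
  rw [sub_eq_add_neg]
  exact (z.add a (-b)).trans (by rw [z.neg])

theorem sub_comm (z : Ber K A) (a b : A) : z.v (a - b) = z.v (b - a) := by
  rw [← z.neg, neg_sub]

theorem pow (z : Ber K A) (a : A) (n : ℕ) : z.v (a ^ n) = z.v a ^ n := by
  induction n with
  | zero => simp [z.one]
  | succ n ih => rw [pow_succ, z.mul, ih, pow_succ]

theorem prod {ι : Type} (z : Ber K A) (s : Finset ι) (f : ι → A) :
    z.v (∏ i ∈ s, f i) = ∏ i ∈ s, z.v (f i) := by
  classical
  induction s using Finset.induction_on with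
  | empty => simp [z.one]
  | insert i s hi ih => rw [Finset.prod_insert hi, z.mul, ih, Finset.prod_insert hi]

theorem mprod (z : Ber K A) (s : Multiset A) : z.v s.prod = (s.map z.v).prod := by
  induction s using Multiset.induction_on with
  | empty => simp [z.one]
  | cons a s ih => rw [Multiset.prod_cons, z.mul, ih, Multiset.map_cons, Multiset.prod_cons]

/-- If `|b| < |a|` then `|a + b| = |a|`. -/
theorem add_eq (z : Ber K A) {a b : A} (h : z.v b < z.v a) : z.v (a + b) = z.v a := by
  apply le_antisymm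
  · exact (z.add a b).trans (max_le le_rfl h.le)
  · by_contra hc
    push Not at hc
    have h1 : z.v a ≤ max (z.v (a + b)) (z.v b) := by
      calc z.v a = z.v (a + b - b) := by rw [add_sub_cancel_right]
        _ ≤ _ := z.sub _ _
    exact absurd h1 (not_le.2 (max_lt hc h))

theorem sub_eq (z : Ber K A) {a b : A} (h : z.v (a - b) < z.v a) : z.v b = z.v a := by
  have h1 : z.v (a + -(a - b)) = z.v a := z.add_eq (by rwa [z.neg])
  rwa [show a + -(a - b) = b by ring] at h1

theorem sum_le {ι : Type} (z : Ber K A) (s : Finset ι) (f : ι → A) {M : ℝ} (hM : 0 ≤ M)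
    (h : ∀ i ∈ s, z.v (f i) ≤ M) : z.v (∑ i ∈ s, f i) ≤ M := by
  classical
  induction s using Finset.induction_on with
  | empty => simpa [z.zero] using hM
  | insert i s hi ih =>
    rw [Finset.sum_insert hi]
    refine (z.add _ _).trans (max_le (h i (Finset.mem_insert_self i s)) (ih fun j hj => ?_))
    exact h j (Finset.mem_insert_of_mem hj)

theorem continuous_v (a : A) : Continuous (fun z : Ber K A => z.v a) :=
  (continuous_apply a).comp continuous_induced_dom

theorem continuous_iff {Y : Type} [TopologicalSpace Y] {f : Y → Ber K A} :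
    Continuous f ↔ ∀ a, Continuous fun y => (f y).v a := by
  rw [continuous_induced_rng]
  exact continuous_pi_iff

theorem isEmbedding_v : Topology.IsEmbedding (Ber.v : Ber K A → A → ℝ) :=
  ⟨⟨rfl⟩, v_injective⟩

instance : T2Space (Ber K A) := isEmbedding_v.t2Space

/-- The set of multiplicative seminorms is closed in the space of all functions. -/
theorem isClosedEmbedding_v : Topology.IsClosedEmbedding (Ber.v : Ber K A → A → ℝ) := by
  refine ⟨isEmbedding_v, ?_⟩
  have : Set.range (Ber.v : Ber K A → A → ℝ) =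
      {f | ∀ a, 0 ≤ f a} ∩ {f | f 1 = 1} ∩ {f | ∀ a b, f (a * b) = f a * f b} ∩
      {f | ∀ a b, f (a + b) ≤ max (f a) (f b)} ∩ {f | ∀ c : K, f (algebraMap K A c) = ‖c‖} := by
    ext f
    constructor
    · rintro ⟨z, rfl⟩
      exact ⟨⟨⟨⟨z.nonneg, z.one⟩, z.mul⟩, z.add⟩, z.ext⟩
    · rintro ⟨⟨⟨⟨h1, h2⟩, h3⟩, h4⟩, h5⟩
      exact ⟨⟨f, h1, h2, h3, h4, h5⟩, rfl⟩
  rw [this]
  have c (a : A) : Continuous fun f : A → ℝ => f a := continuous_apply a
  refine IsClosed.inter (IsClosed.inter (IsClosed.inter (IsClosed.inter ?_ ?_) ?_) ?_) ?_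
  · simp only [Set.ofPred_forall]
    exact isClosed_iInter fun a => isClosed_le continuous_const (c a)
  · exact isClosed_eq (c 1) continuous_const
  · simp only [Set.ofPred_forall]
    exact isClosed_iInter fun a => isClosed_iInter fun b =>
      isClosed_eq (c _) ((c a).mul (c b))
  · simp only [Set.ofPred_forall]
    exact isClosed_iInter fun a => isClosed_iInter fun b =>
      isClosed_le (c _) ((c a).max (c b))
  · simp only [Set.ofPred_forall]
    exact isClosed_iInter fun a => isClosed_eq (c _) continuous_const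

/-- A closed set on which all functions are bounded is compact. -/
theorem isCompact_of_bounded {Z : Set (Ber K A)} (hZ : IsClosed Z) (M : A → ℝ)
    (hM : ∀ z ∈ Z, ∀ a, z.v a ≤ M a) : IsCompact Z := by
  have h1 : IsCompact (Set.pi Set.univ fun a => Set.Icc (0 : ℝ) (M a)) :=
    isCompact_univ_pi fun a => isCompact_Icc
  have h2 : IsCompact ((Ber.v : Ber K A → A → ℝ) ⁻¹' (Set.pi Set.univ fun a => Set.Icc 0 (M a))) :=
    isClosedEmbedding_v.isCompact_preimage h1
  exact h2.of_isClosed_subset hZ fun z hz a _ => ⟨z.nonneg a, hM z hz a⟩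

theorem isClosed_Iic (e : Ber K A) : IsClosed (Set.Iic e) := by
  have : Set.Iic e = ⋂ a, {z : Ber K A | z.v a ≤ e.v a} := by
    ext z; simp [le_def]
  rw [this]
  exact isClosed_iInter fun a => isClosed_le (continuous_v a) continuous_const

/-- (T1) `Δ_e = {z ≤ e}` is compact. -/
theorem isCompact_Iic (e : Ber K A) : IsCompact (Set.Iic e) :=
  isCompact_of_bounded (isClosed_Iic e) e.v fun _ hz => hz

/-- The map `M(B) → M(A)` of a homomorphism `φ : A → B`; the base field may change. -/
def comap {H : Type} [NormedField H] [Algebra H B] (φ : A →+* B)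
    (hφ : ∀ (w : Ber H B) (c : K), w.v (φ (algebraMap K A c)) = ‖c‖) (w : Ber H B) :
    Ber K A where
  v a := w.v (φ a)
  nonneg a := w.nonneg _
  one := by rw [map_one, w.one]
  mul a b := by rw [map_mul, w.mul]
  add a b := by rw [map_add]; exact w.add _ _
  ext c := hφ w c

omit [Algebra K B] in
@[simp] theorem comap_v {H : Type} [NormedField H] [Algebra H B] (φ : A →+* B)
    (hφ : ∀ (w : Ber H B) (c : K), w.v (φ (algebraMap K A c)) = ‖c‖) (w : Ber H B) (a : A) :
    (comap φ hφ w).v a = w.v (φ a) := rfl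

omit [Algebra K B] in
theorem comap_mono {H : Type} [NormedField H] [Algebra H B] (φ : A →+* B)
    (hφ : ∀ (w : Ber H B) (c : K), w.v (φ (algebraMap K A c)) = ‖c‖) :
    Monotone (comap φ hφ) := fun _ _ h a => h (φ a)

omit [Algebra K B] in
theorem comap_continuous {H : Type} [NormedField H] [Algebra H B] (φ : A →+* B)
    (hφ : ∀ (w : Ber H B) (c : K), w.v (φ (algebraMap K A c)) = ‖c‖) :
    Continuous (comap φ hφ) := continuous_iff.2 fun a => continuous_v (φ a)

/-- The restriction `M(B) → M(A)` along a homomorphism of `K`-algebras. -/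
def res (φ : A →ₐ[K] B) (w : Ber K B) : Ber K A :=
  comap φ.toRingHom (fun w c => by
    have h := w.ext c
    rwa [← φ.commutes c] at h) w

@[simp] theorem res_v (φ : A →ₐ[K] B) (w : Ber K B) (a : A) : (res φ w).v a = w.v (φ a) := rfl

theorem res_mono (φ : A →ₐ[K] B) : Monotone (res φ : Ber K B → Ber K A) :=
  fun _ _ h a => h (φ a)

theorem res_continuous (φ : A →ₐ[K] B) : Continuous (res φ : Ber K B → Ber K A) :=
  continuous_iff.2 fun a => continuous_v (φ a)

/-- (T1) A non-empty chain has an infimum, and the values at the infimum are the infima of the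
values. -/
theorem exists_isGLB {C : Set (Ber K A)} (hC : IsChain (· ≤ ·) C) (hne : C.Nonempty) :
    ∃ m, IsGLB C m ∧ ∀ a, IsGLB ((fun z : Ber K A => z.v a) '' C) (m.v a) := by
  classical
  have hbdd : ∀ a, BddBelow ((fun z : Ber K A => z.v a) '' C) := fun a =>
    ⟨0, by rintro _ ⟨z, -, rfl⟩; exact z.nonneg a⟩
  have hn : ∀ a, ((fun z : Ber K A => z.v a) '' C).Nonempty := fun a => hne.image _
  have hglb : ∀ a, IsGLB ((fun z : Ber K A => z.v a) '' C)
      (sInf ((fun z : Ber K A => z.v a) '' C)) := fun a => isGLB_csInf (hn a) (hbdd a)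
  -- approximation
  have happ : ∀ a, ∀ t, sInf ((fun z : Ber K A => z.v a) '' C) < t → ∃ z ∈ C, z.v a < t := by
    intro a t ht
    obtain ⟨_, ⟨z, hz, rfl⟩, h⟩ := exists_lt_of_csInf_lt (hn a) ht
    exact ⟨z, hz, h⟩
  have hle : ∀ a, ∀ z ∈ C, sInf ((fun z : Ber K A => z.v a) '' C) ≤ z.v a :=
    fun a z hz => (hglb a).1 ⟨z, hz, rfl⟩
  have hmin : ∀ z₁ ∈ C, ∀ z₂ ∈ C, ∃ z ∈ C, z ≤ z₁ ∧ z ≤ z₂ := by
    intro z₁ h₁ z₂ h₂
    rcases hC.total h₁ h₂ with h | h
    · exact ⟨z₁, h₁, le_rfl, h⟩
    · exact ⟨z₂, h₂, h, le_rfl⟩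
  have hnn : ∀ a, 0 ≤ sInf ((fun z : Ber K A => z.v a) '' C) := fun a =>
    (hglb a).2 (by rintro _ ⟨z, -, rfl⟩; exact z.nonneg a)
  have hconst : ∀ (a : A) (c : ℝ), (∀ z ∈ C, z.v a = c) →
      sInf ((fun z : Ber K A => z.v a) '' C) = c := by
    intro a c h
    obtain ⟨z, hz⟩ := hne
    apply le_antisymm
    · rw [← h z hz]; exact hle a z hz
    · exact (hglb a).2 (by rintro _ ⟨w, hw, rfl⟩; exact (h w hw).ge)
  let m : Ber K A :=
    { v := fun a => sInf ((fun z : Ber K A => z.v a) '' C)
      nonneg := hnn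
      one := hconst 1 1 fun z _ => z.one
      mul := by
        intro a b
        apply le_antisymm
        · by_contra hc
          push Not at hc
          -- choose `s > inf a`, `t > inf b` with `s t < inf (ab)`
          set x := sInf ((fun z : Ber K A => z.v a) '' C)
          set y := sInf ((fun z : Ber K A => z.v b) '' C)
          set w := sInf ((fun z : Ber K A => z.v (a * b)) '' C)
          have hcont : Filter.Tendsto (fun ε : ℝ => (x + ε) * (y + ε)) (𝓝[>] 0) (𝓝 (x * y)) := by
            have h1 : Filter.Tendsto (fun ε : ℝ => (x + ε) * (y + ε)) (𝓝 0)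
                (𝓝 ((x + 0) * (y + 0))) := Continuous.tendsto (by fun_prop) 0
            rw [add_zero, add_zero] at h1
            exact h1.mono_left nhdsWithin_le_nhds
          have hev := (hcont.eventually (gt_mem_nhds hc)).and self_mem_nhdsWithin
          obtain ⟨ε, hε1, hε2⟩ := hev.exists
          have hε2' : 0 < ε := hε2
          obtain ⟨z₁, hz₁, hz₁'⟩ := happ a (x + ε) (by linarith)
          obtain ⟨z₂, hz₂, hz₂'⟩ := happ b (y + ε) (by linarith)
          obtain ⟨z, hz, hz1, hz2⟩ := hmin z₁ hz₁ z₂ hz₂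
          have h1 : w ≤ z.v (a * b) := hle (a * b) z hz
          rw [z.mul] at h1
          have h2 : z.v a * z.v b ≤ (x + ε) * (y + ε) :=
            mul_le_mul ((hz1 a).trans hz₁'.le) ((hz2 b).trans hz₂'.le) (z.nonneg b)
              (by have := hnn a; linarith)
          linarith
        · refine (hglb (a * b)).2 ?_
          rintro _ ⟨z, hz, rfl⟩
          show _ ≤ z.v (a * b)
          rw [z.mul]
          exact mul_le_mul (hle a z hz) (hle b z hz) (hnn b) (z.nonneg a)
      add := by
        intro a b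
        by_contra hc
        push Not at hc
        obtain ⟨z₁, hz₁, hz₁'⟩ := happ a _ ((le_max_left _ _).trans_lt hc)
        obtain ⟨z₂, hz₂, hz₂'⟩ := happ b _ ((le_max_right _ _).trans_lt hc)
        obtain ⟨z, hz, hz1, hz2⟩ := hmin z₁ hz₁ z₂ hz₂
        have h1 := hle (a + b) z hz
        have h2 := z.add a b
        have h3 : max (z.v a) (z.v b) < sInf ((fun z : Ber K A => z.v (a + b)) '' C) :=
          max_lt ((hz1 a).trans_lt hz₁') ((hz2 b).trans_lt hz₂')
        linarith
      ext := fun c => hconst _ _ fun z _ => z.ext c }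
  refine ⟨m, ⟨?_, ?_⟩, hglb⟩
  · intro z hz a
    exact hle a z hz
  · intro w hw a
    refine (hglb a).2 ?_
    rintro _ ⟨z, hz, rfl⟩
    exact hw hz a

end Ber

end Pool.Agent.TD
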