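import Pool.Agent.TD.T.Stmts

/-!
# Block T, (CONJ): the Galois action on `M(L[X])` (MP_90358a_ag)
-/

open scoped Topology
open Polynomial

namespace Pool.Agent.TD

namespace T_CONJ

theorem exists_equiv {H L : Type} [Field H] [Field L] [Algebra H L] [IsAlgClosure H L] {P : H[X]}
    (hP : Irreducible P) {a b : L} (ha : aeval a P = 0) (hb : aeval b P = 0) :
    ∃ σ : L ≃ₐ[H] L, σ a = b := by
  have : Normal H L := IsAlgClosure.normal H L
  have h : IsConjRoot H a b := by
    unfold IsConjRoot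
    rw [← minpoly.eq_of_irreducible hP ha, ← minpoly.eq_of_irreducible hP hb]
  obtain ⟨σ, hσ⟩ := isConjRoot_iff_exists_algEquiv.1 h
  exact ⟨σ.symm, by rw [← hσ, AlgEquiv.symm_apply_apply]⟩

end T_CONJ

theorem td_conj (hExt : StmtExt) : StmtConj := by
  intro H L _ _ _ _ _ _ P hP a b ha hb
  have : Algebra.IsAlgebraic H L := IsAlgClosure.isAlgebraic
  obtain ⟨σ, hσ⟩ := T_CONJ.exists_equiv hP ha hb
  obtain ⟨N₀, hN₀⟩ := hExt H L
  refine ⟨σ, hσ, fun N x => ?_, fun z w hw => ?_⟩
  · have h : Ber.res (σ : L →ₐ[H] L) N = N := (hN₀ _).trans (hN₀ N).symm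
    have h2 := congrArg (fun M : Ber H L => M.v x) h
    exact h2
  · refine ⟨Ber.res (Polynomial.mapAlgHom (σ.symm : L →ₐ[H] L)) w, fun f => ?_, fun c => ?_⟩
    · rw [Ber.res_v, Polynomial.coe_mapAlgHom, Polynomial.map_map]
      have e : (((σ.symm : L →ₐ[H] L) : L →+* L).comp (algebraMap H L)) = algebraMap H L := by
        ext x
        simp
      rw [e]
      exact hw f
    · rw [Ber.res_v, Polynomial.coe_mapAlgHom]
      simp

end Pool.Agent.TD
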