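import Pool.Agent.TD.T.Stmts

/-!
# Block T, module CORE (MP_90358a_ag)
-/

open scoped Topology
open Polynomial

namespace Pool.Agent.TD

namespace T_CORE

variable {H L : Type} [NormedField H] [Field L] [Algebra H L]

/-- The absolute value of a nonzero element of a field is nonzero. -/
theorem v_ne_zero (N : Ber H L) {c : L} (hc : c ≠ 0) : N.v c ≠ 0 := by
  intro h
  have h1 := N.mul c c⁻¹
  rw [mul_inv_cancel₀ hc, N.one, h, zero_mul] at h1
  exact one_ne_zero h1

/-- The value at `x` of a point of `M(L)` is determined by the norm of `H`. -/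
theorem pow_eq (hConj : StmtConj) [IsUltrametricDist H] [CompleteSpace H] [IsAlgClosure H L]
    (x : L) : ∃ n : ℕ, n ≠ 0 ∧ ∃ c : ℝ, ∀ N : Ber H L, N.v x ^ n = c := by
  have : IsAlgClosed L := IsAlgClosure.isAlgClosed H
  have : Algebra.IsAlgebraic H L := IsAlgClosure.isAlgebraic
  have hint : IsIntegral H x := Algebra.IsIntegral.isIntegral x
  have hirr : Irreducible (minpoly H x) := minpoly.irreducible hint
  have hmon : (minpoly H x).Monic := minpoly.monic hint
  have hx0 : aeval x (minpoly H x) = 0 := minpoly.aeval H x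
  have hne : (minpoly H x).map (algebraMap H L) ≠ 0 := (hmon.map _).ne_zero
  have hsplit : ((minpoly H x).map (algebraMap H L)).Splits := IsAlgClosed.splits _
  have heq := hsplit.eq_prod_roots_of_monic (hmon.map _)
  have hxr : x ∈ ((minpoly H x).map (algebraMap H L)).roots := by
    rw [mem_roots hne, IsRoot.def, eval_map_algebraMap]
    exact hx0
  refine ⟨((minpoly H x).map (algebraMap H L)).roots.card,
    (Multiset.card_pos_iff_exists_mem.2 ⟨x, hxr⟩).ne', ‖(minpoly H x).eval 0‖, fun N => ?_⟩
  have h1 : N.v (algebraMap H L ((minpoly H x).eval 0)) = ‖(minpoly H x).eval 0‖ := N.ext _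
  have h2 : algebraMap H L ((minpoly H x).eval 0) =
      (((minpoly H x).map (algebraMap H L)).roots.map fun b => -b).prod := by
    have h3 : algebraMap H L ((minpoly H x).eval 0) =
        ((minpoly H x).map (algebraMap H L)).eval 0 := by
      rw [eval_map_algebraMap, aeval_def, ← map_zero (algebraMap H L), eval₂_at_apply]
    rw [h3]
    conv_lhs => rw [heq]
    rw [eval_multiset_prod, Multiset.map_map]
    congr 1
    apply Multiset.map_congr rfl
    intro b _
    simp
  rw [← h1, h2, N.mprod, Multiset.map_map]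
  have h4 : ∀ b ∈ ((minpoly H x).map (algebraMap H L)).roots, (N.v ∘ fun b => -b) b = N.v x := by
    intro b hb
    rw [mem_roots hne, IsRoot.def, eval_map_algebraMap] at hb
    obtain ⟨σ, hσ, hN, -⟩ := hConj H L (minpoly H x) hirr x b hx0 hb
    rw [Function.comp_apply, N.neg, ← hσ, hN]
  rw [Multiset.map_congr rfl h4, Multiset.map_const', Multiset.prod_replicate]

/-- There is at most one point of `M(L)`. -/
theorem uniq (hConj : StmtConj) [IsUltrametricDist H] [CompleteSpace H] [IsAlgClosure H L]
    (N N' : Ber H L) : N = N' := by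
  apply Ber.ext_v
  intro x
  obtain ⟨n, hn, c, hc⟩ := pow_eq hConj (H := H) x
  exact (pow_left_inj₀ (N.nonneg x) (N'.nonneg x) hn).1 ((hc N).trans (hc N').symm)

/-- Values of constants at a point of `M(L[X])`. -/
theorem v_C (hConj : StmtConj) [IsUltrametricDist H] [CompleteSpace H] [IsAlgClosure H L]
    (N : Ber H L) (w : Ber H L[X]) (c : L) : w.v (C c) = N.v c := by
  have h := uniq hConj (Ber.res (CAlgHom : L →ₐ[H] L[X]) w) N
  rw [← h]
  rfl

end T_CORE

open T_CORE in
theorem td_core (hOver : StmtOver) (hConj : StmtConj) (hProd : StmtProd) : StmtCore := by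
  intro H L _ _ _ _ _ _ P hP a ha N ρ g hρ hg z hz
  classical
  have : IsAlgClosed L := IsAlgClosure.isAlgClosed H
  have : Algebra.IsAlgebraic H L := IsAlgClosure.isAlgebraic
  obtain ⟨w, hw⟩ := hOver H L z
  have hne : P.map (algebraMap H L) ≠ 0 := (Polynomial.map_ne_zero_iff
    (algebraMap H L).injective).2 hP.ne_zero
  have hmem : ∀ b : L, b ∈ (P.map (algebraMap H L)).roots ↔ aeval b P = 0 := by
    intro b
    rw [mem_roots hne, IsRoot.def, eval_map_algebraMap]
  have har : a ∈ (P.map (algebraMap H L)).roots := (hmem a).2 ha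
  -- a root with minimal value
  obtain ⟨b₀, hb₀, hmin⟩ := (P.map (algebraMap H L)).roots.toFinset.exists_min_image
    (fun b => w.v (X - C b)) ⟨a, Multiset.mem_toFinset.2 har⟩
  rw [Multiset.mem_toFinset, hmem] at hb₀
  obtain ⟨σ, hσ, -, hcon⟩ := hConj H L P hP b₀ a hb₀ ha
  obtain ⟨w', hw', hwc⟩ := hcon z w hw
  have hmin' : ∀ b ∈ (P.map (algebraMap H L)).roots, w'.v (X - C a) ≤ w'.v (X - C b) := by
    intro b hb
    have h1 : aeval (σ.symm b) P = 0 := by
      rw [aeval_algHom_apply σ.symm b P, (hmem b).1 hb, map_zero]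
    have h2 := hmin (σ.symm b) (by rw [Multiset.mem_toFinset, hmem]; exact h1)
    have h3 := hwc (σ.symm b)
    rw [AlgEquiv.apply_symm_apply] at h3
    have h4 := hwc b₀
    rw [hσ] at h4
    rw [h3, h4]
    exact h2
  refine ⟨w', hw', ?_⟩
  by_contra hcontra
  push Not at hcontra
  have hNb : ∀ b ∈ (P.map (algebraMap H L)).roots, max ρ (N.v (a - b)) ≤ w'.v (X - C b) := by
    intro b hb
    refine max_le (hcontra.le.trans (hmin' b hb)) ?_
    rw [← v_C hConj N w' (a - b)]
    have h1 : (C (a - b) : L[X]) = (X - C b) - (X - C a) := by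
      rw [C_sub]; ring
    rw [h1]
    exact (w'.sub _ _).trans (max_le le_rfl (hmin' b hb))
  have hpos : ∀ b ∈ (P.map (algebraMap H L)).roots, 0 < w'.v (X - C b) := fun b hb =>
    (hρ.trans_lt hcontra).trans_le (hmin' b hb)
  have e1 : z.v P = N.v (P.map (algebraMap H L)).leadingCoeff *
      ((P.map (algebraMap H L)).roots.map fun b => w'.v (X - C b)).prod := by
    rw [← hw' P, hProd H L w' (P.map (algebraMap H L)), v_C hConj N]
  have e2 : g.v (P.map (algebraMap H L)) = N.v (P.map (algebraMap H L)).leadingCoeff *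
      ((P.map (algebraMap H L)).roots.map fun b => max ρ (N.v (a - b))).prod := by
    rw [hProd H L g (P.map (algebraMap H L)), v_C hConj N]
    congr 2
    apply Multiset.map_congr rfl
    intro b _
    exact hg.lin b
  have hlc : 0 < N.v (P.map (algebraMap H L)).leadingCoeff :=
    lt_of_le_of_ne (N.nonneg _) (v_ne_zero N (leadingCoeff_ne_zero.2 hne)).symm
  rw [e1, e2] at hz
  have hz' := le_of_mul_le_mul_left hz hlc
  obtain ⟨t, ht⟩ := Multiset.exists_cons_of_mem har
  rw [ht, Multiset.map_cons, Multiset.prod_cons, Multiset.map_cons, Multiset.prod_cons, sub_self,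
    N.zero, max_eq_left hρ] at hz'
  have ht' : ∀ b ∈ t, b ∈ (P.map (algebraMap H L)).roots := fun b hb => by
    rw [ht]; exact Multiset.mem_cons_of_mem hb
  have hprod : 0 < (t.map fun b => w'.v (X - C b)).prod := by
    apply Multiset.prod_pos
    intro y hy
    obtain ⟨b, hb, rfl⟩ := Multiset.mem_map.1 hy
    exact hpos b (ht' b hb)
  have hle : (t.map fun b => max ρ (N.v (a - b))).prod ≤ (t.map fun b => w'.v (X - C b)).prod :=
    Multiset.prod_map_le_prod_map₀ _ _ (fun b _ => hρ.trans (le_max_left _ _))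
      (fun b hb => hNb b (ht' b hb))
  have h1 : ρ * (t.map fun b => max ρ (N.v (a - b))).prod ≤
      ρ * (t.map fun b => w'.v (X - C b)).prod := mul_le_mul_of_nonneg_left hle hρ
  have h2 : ρ * (t.map fun b => w'.v (X - C b)).prod <
      w'.v (X - C a) * (t.map fun b => w'.v (X - C b)).prod := mul_lt_mul_of_pos_right hcontra hprod
  linarith

end Pool.Agent.TD
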