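import Pool.Agent.TD.T.Stmts

/-!
# T_EXT: the absolute value of a complete field extends uniquely to an algebraic extension
-/

open scoped Topology
open Polynomial

namespace Pool.Agent.TD

namespace T_EXT

/-- A point of `M(L)`, `L` a field, vanishes only at zero. -/
theorem eq_zero {H L : Type} [NormedField H] [Field L] [Algebra H L] (N : Ber H L) {x : L}
    (h : N.v x = 0) : x = 0 := by
  by_contra hx
  have h1 := N.mul x x⁻¹
  rw [mul_inv_cancel₀ hx, N.one, h, zero_mul] at h1
  exact one_ne_zero h1

/-- The non-trivially valued case. -/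
theorem nontriv (H L : Type) [NontriviallyNormedField H] [IsUltrametricDist H] [CompleteSpace H]
    [Field L] [Algebra H L] [Algebra.IsAlgebraic H L] : ∃ N : Ber H L, ∀ N' : Ber H L, N' = N := by
  let N : Ber H L :=
    { v := spectralNorm H L
      nonneg := spectralNorm_nonneg
      one := spectralNorm_one
      mul := fun a b => spectralAlgNorm_mul a b
      add := fun a b => isNonarchimedean_spectralNorm a b
      ext := spectralNorm_extends }
  refine ⟨N, fun N' => Ber.ext_v fun a => ?_⟩
  let f : AbsoluteValue L ℝ :=
    { toFun := N'.v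
      map_mul' := N'.mul
      nonneg' := N'.nonneg
      eq_zero' := fun x => ⟨fun h => eq_zero N' h, fun h => by rw [h]; exact N'.zero⟩
      add_le' := fun x y => (N'.add x y).trans
        (max_le_add_of_nonneg (N'.nonneg x) (N'.nonneg y)) }
  exact spectralNorm_unique_field_norm_ext (f := f) (fun x => N'.ext x) a

/-- In the trivially valued case all elements have absolute value at most one. -/
theorem le_one {H L : Type} [NormedField H] [Field L] [Algebra H L] [Algebra.IsAlgebraic H L]
    (hH : ∀ c : H, ‖c‖ ≤ 1) (N : Ber H L) (x : L) : N.v x ≤ 1 := by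
  by_contra hx
  push Not at hx
  obtain ⟨p, hp, hpx⟩ := (Algebra.IsAlgebraic.isAlgebraic (R := H) x).isIntegral
  have h1 : x ^ p.natDegree
      + ∑ i ∈ Finset.range p.natDegree, algebraMap H L (p.coeff i) * x ^ i = 0 := by
    rw [hp.as_sum] at hpx
    simp only [eval₂_add, eval₂_pow, eval₂_X, eval₂_finsetSum, eval₂_mul, eval₂_C] at hpx
    exact hpx
  rcases Nat.eq_zero_or_pos p.natDegree with h0 | h0
  · rw [h0] at h1
    simp at h1
  · have h2 : N.v (x ^ p.natDegree) ≤ N.v x ^ (p.natDegree - 1) := by
      have e : x ^ p.natDegree
          = -(∑ i ∈ Finset.range p.natDegree, algebraMap H L (p.coeff i) * x ^ i) :=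
        eq_neg_of_add_eq_zero_left h1
      rw [e, N.neg]
      refine N.sum_le _ _ (pow_nonneg (N.nonneg x) _) fun i hi => ?_
      rw [N.mul, N.ext, N.pow]
      have hi' : i ≤ p.natDegree - 1 := by
        have := Finset.mem_range.1 hi
        omega
      calc ‖p.coeff i‖ * N.v x ^ i ≤ 1 * N.v x ^ i :=
            mul_le_mul_of_nonneg_right (hH _) (pow_nonneg (N.nonneg x) _)
        _ = N.v x ^ i := one_mul _
        _ ≤ _ := pow_le_pow_right₀ hx.le hi'
    rw [N.pow] at h2
    have h3 : N.v x ^ (p.natDegree - 1) < N.v x ^ p.natDegree :=
      pow_lt_pow_right₀ hx (by omega)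
    linarith

/-- The trivially valued case. -/
theorem triv (H L : Type) [NormedField H] [Field L] [Algebra H L] [Algebra.IsAlgebraic H L]
    (hH : ∀ c : H, ‖c‖ ≤ 1) : ∃ N : Ber H L, ∀ N' : Ber H L, N' = N := by
  classical
  have hH1 : ∀ c : H, c ≠ 0 → ‖c‖ = 1 := by
    intro c hc
    have h1 := hH c
    have h2 := hH c⁻¹
    rw [norm_inv] at h2
    have h3 : 0 < ‖c‖ := norm_pos_iff.2 hc
    have h4 : 1 ≤ ‖c‖ := (inv_le_one₀ h3).1 h2
    exact le_antisymm h1 h4
  let N : Ber H L :=
    { v := fun x => if x = 0 then 0 else 1
      nonneg := by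
        intro a
        split_ifs
        · exact le_rfl
        · exact zero_le_one
      one := if_neg one_ne_zero
      mul := by
        intro a b
        simp only [mul_eq_zero]
        by_cases ha : a = 0
        · simp [ha]
        · by_cases hb : b = 0
          · simp [hb]
          · simp [ha, hb]
      add := by
        intro a b
        by_cases hab : a + b = 0
        · rw [if_pos hab]
          refine le_max_of_le_left ?_
          split_ifs
          · exact le_rfl
          · exact zero_le_one
        · rw [if_neg hab]
          by_cases ha : a = 0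
          · have hb : b ≠ 0 := by
              rintro rfl
              exact hab (by rw [ha, add_zero])
            rw [if_neg hb]
            exact le_max_right _ _
          · rw [if_neg ha]
            exact le_max_left _ _
      ext := by
        intro c
        by_cases hc : c = 0
        · rw [hc, map_zero, if_pos rfl, norm_zero]
        · rw [if_neg, hH1 c hc]
          intro h
          exact hc ((map_eq_zero (algebraMap H L)).1 h) }
  refine ⟨N, fun N' => Ber.ext_v fun x => ?_⟩
  show N'.v x = if x = 0 then 0 else 1
  by_cases hx : x = 0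
  · rw [if_pos hx, hx, N'.zero]
  · rw [if_neg hx]
    have h1 := le_one hH N' x
    have h2 := le_one hH N' x⁻¹
    have h3 := N'.mul x x⁻¹
    rw [mul_inv_cancel₀ hx, N'.one] at h3
    have h4 := N'.nonneg x
    have h5 := N'.nonneg x⁻¹
    nlinarith

end T_EXT

/-- (EXT) the absolute value of a complete field extends uniquely to an algebraic extension. -/
theorem td_ext : StmtExt := by
  intro H L _ _ _ _ _ _
  by_cases hH : ∀ c : H, ‖c‖ ≤ 1
  · exact T_EXT.triv H L hH
  · push Not at hH
    let i : NontriviallyNormedField H := { toNormedField := inferInstance, non_trivial := hH }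
    exact @T_EXT.nontriv H L i _ _ _ _ _

end Pool.Agent.TD
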