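import Pool.Agent.TD.T.Stmts

/-!
# Block T, module T_GAUSS: Gauss points (MP_90358a_ag)
-/

open scoped Topology
open Polynomial

namespace Pool.Agent.TD

namespace T_GAUSS

/-- The absolute value of a field given by a point of its spectrum. -/
noncomputable def av {H L : Type} [NormedField H] [Field L] [Algebra H L] (N : Ber H L) :
    AbsoluteValue L ℝ where
  toFun := N.v
  map_mul' := N.mul
  nonneg' := N.nonneg
  eq_zero' x := by
    constructor
    · intro h
      by_contra hx
      have h1 := N.mul x x⁻¹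
      rw [mul_inv_cancel₀ hx, N.one, h, zero_mul] at h1
      exact one_ne_zero h1
    · rintro rfl
      exact N.zero
  add_le' x y := (N.add x y).trans (max_le_add_of_nonneg (N.nonneg x) (N.nonneg y))

theorem av_apply {H L : Type} [NormedField H] [Field L] [Algebra H L] (N : Ber H L) (x : L) :
    av N x = N.v x := rfl

theorem av_na {H L : Type} [NormedField H] [Field L] [Algebra H L] (N : Ber H L) :
    IsNonarchimedean (av N) := fun x y => N.add x y

/-- The Gauss point. -/
noncomputable def gp {H L : Type} [NormedField H] [Field L] [Algebra H L] (N : Ber H L)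
    (a : L) (ρ : ℝ) (hρ : 0 ≤ ρ) : Ber H L[X] where
  v f := (f.comp (X + C a)).gaussNorm (av N) ρ
  nonneg f := gaussNorm_nonneg (av N) _ hρ
  one := by
    rw [one_comp, ← C_1, gaussNorm_C, av_apply, N.one]
  mul f g := by
    rw [mul_comp]
    rcases hρ.eq_or_lt with h | h
    · rw [← h, gaussNorm_zero_right, gaussNorm_zero_right, gaussNorm_zero_right,
        mul_coeff_zero, map_mul]
    · exact gaussNorm_mul (av_na N) h _ _
  add f g := by
    rw [add_comp]
    exact isNonarchimedean_gaussNorm (av N) (av_na N) hρ _ _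
  ext c := by
    rw [IsScalarTower.algebraMap_apply H L L[X], ← C_eq_algebraMap, C_comp, gaussNorm_C,
      av_apply, N.ext]

theorem gp_v {H L : Type} [NormedField H] [Field L] [Algebra H L] (N : Ber H L)
    (a : L) (ρ : ℝ) (hρ : 0 ≤ ρ) (f : L[X]) :
    (gp N a ρ hρ).v f = (f.comp (X + C a)).gaussNorm (av N) ρ := rfl

theorem gp_lin {H L : Type} [NormedField H] [Field L] [Algebra H L] (N : Ber H L)
    (a : L) (ρ : ℝ) (hρ : 0 ≤ ρ) (b : L) :
    (gp N a ρ hρ).v (X - C b) = max ρ (N.v (a - b)) := by
  have e : (X - C b : L[X]).comp (X + C a) = X + C (a - b) := by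
    rw [sub_comp, X_comp, C_comp, C_sub]
    ring
  rw [gp_v, e]
  have c0 : (X + C (a - b) : L[X]).coeff 0 = a - b := by simp
  have c1 : (X + C (a - b) : L[X]).coeff 1 = 1 := by
    rw [coeff_add, coeff_X_one, coeff_C, if_neg one_ne_zero, add_zero]
  have c2 : ∀ i, 2 ≤ i → (X + C (a - b) : L[X]).coeff i = 0 := by
    intro i hi
    rw [coeff_add, coeff_X_of_ne_one (by omega), coeff_C, if_neg (by omega), add_zero]
  apply le_antisymm
  · obtain ⟨i, hi⟩ := exists_eq_gaussNorm (av N) ρ (X + C (a - b) : L[X])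
    rw [hi]
    rcases i with _ | _ | i
    · rw [c0, pow_zero, mul_one]
      exact le_max_right _ _
    · rw [zero_add, c1, map_one, one_mul, pow_one]
      exact le_max_left _ _
    · rw [c2 _ (by omega), map_zero, zero_mul]
      exact hρ.trans (le_max_left _ _)
  · apply max_le
    · have h := le_gaussNorm (av N) (X + C (a - b) : L[X]) hρ 1
      rwa [c1, map_one, one_mul, pow_one] at h
    · have h := le_gaussNorm (av N) (X + C (a - b) : L[X]) hρ 0
      rwa [c0, pow_zero, mul_one] at h

end T_GAUSS

open T_GAUSS in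
theorem td_gauss : StmtGauss := by
  intro H L _ _ _ N a ρ hρ
  refine ⟨gp N a ρ hρ, gp_lin N a ρ hρ, ?_, ?_⟩
  · intro b
    rw [gp_v, C_comp, gaussNorm_C, av_apply]
  · intro w hw hwa f
    rw [gp_v]
    set q : L[X] := f.comp (X + C a) with hq
    have hf : f = ∑ i ∈ Finset.range (q.natDegree + 1), C (q.coeff i) * (X - C a) ^ i := by
      have h1 : f = q.comp (X - C a) := by
        rw [hq, comp_assoc, add_comp, X_comp, C_comp, sub_add_cancel, comp_X]
      rw [h1]
      conv_lhs => rw [comp, eval₂_eq_sum_range]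
    have h0 : 0 ≤ q.gaussNorm (av N) ρ := gaussNorm_nonneg (av N) _ hρ
    conv_lhs => rw [hf]
    refine w.sum_le _ _ h0 fun i _ => ?_
    rw [w.mul, w.pow, hw]
    refine le_trans ?_ (le_gaussNorm (av N) q hρ i)
    rw [av_apply]
    exact mul_le_mul_of_nonneg_left (pow_le_pow_left₀ (w.nonneg _) hwa i) (N.nonneg _)

end Pool.Agent.TD
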