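import Pool.Agent.TD.T.Stmts

/-!
# T_LIFT: surjectivity of `M(B) → M(A)` for integral extensions
-/

open scoped Topology
open Polynomial

namespace Pool.Agent.TD

namespace T_LIFT

/-- A homomorphism from `A` to an algebraically closed field extends, up to the kernel, to every
integral extension of `A`. -/
theorem exists_extension {A B Ω : Type} [CommRing A] [CommRing B] [Algebra A B]
    [Algebra.IsIntegral A B] (hinj : Function.Injective (algebraMap A B)) [Field Ω]
    [IsAlgClosed Ω] (φ : A →+* Ω) : ∃ τ : B →+* Ω, ∀ a, τ (algebraMap A B a) = φ a := by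
  have hp : (RingHom.ker φ).IsPrime := RingHom.ker_isPrime φ
  obtain ⟨Q, -, hQ, hQp⟩ := Ideal.exists_ideal_over_prime_of_isIntegral (S := B)
    (RingHom.ker φ) (⊥ : Ideal B) (by
      rw [← RingHom.ker_eq_comap_bot, (RingHom.injective_iff_ker_eq_bot _).mp hinj]
      exact bot_le)
  have hlo : Q.LiesOver (RingHom.ker φ) := ⟨hQp.symm⟩
  have hd : IsDomain (A ⧸ RingHom.ker φ) := Ideal.Quotient.isDomain _
  have hd' : IsDomain (B ⧸ Q) := Ideal.Quotient.isDomain _
  letI : Algebra (A ⧸ RingHom.ker φ) Ω := (RingHom.kerLift φ).toAlgebra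
  have hφ : Function.Injective (algebraMap (A ⧸ RingHom.ker φ) Ω) := RingHom.kerLift_injective φ
  have hf : FaithfulSMul (A ⧸ RingHom.ker φ) Ω := (faithfulSMul_iff_algebraMap_injective _ _).mpr hφ
  let τ : (B ⧸ Q) →ₐ[A ⧸ RingHom.ker φ] Ω := IsAlgClosed.lift
  refine ⟨τ.toRingHom.comp (Ideal.Quotient.mk Q), fun a => ?_⟩
  have h1 : (Ideal.Quotient.mk Q) (algebraMap A B a) =
      algebraMap (A ⧸ RingHom.ker φ) (B ⧸ Q) (Ideal.Quotient.mk _ a) := rfl
  show τ ((Ideal.Quotient.mk Q) (algebraMap A B a)) = φ a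
  rw [h1, AlgHom.commutes]
  rfl

end T_LIFT

theorem td_lift (hExt : StmtExt) (hRes : StmtRes) : StmtLift := by
  intro K A B _ _ _ _ _ _ _ _ hinj z
  obtain ⟨H, _, _, _, ι, hι⟩ := hRes K A z
  obtain ⟨N, -⟩ := hExt H (AlgebraicClosure H)
  obtain ⟨τ, hτ⟩ := T_LIFT.exists_extension (B := B) hinj
    ((algebraMap H (AlgebraicClosure H)).comp ι)
  have hN : ∀ a, N.v (τ (algebraMap A B a)) = z.v a := by
    intro a
    rw [hτ a, RingHom.comp_apply, N.ext, hι.norm]
  refine ⟨{ v := fun b => N.v (τ b)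
            nonneg := fun b => N.nonneg _
            one := by rw [map_one, N.one]
            mul := fun a b => by rw [map_mul, N.mul]
            add := fun a b => by rw [map_add]; exact N.add _ _
            ext := fun c => by
              rw [IsScalarTower.algebraMap_apply K A B, hN, z.ext] }, hN⟩

end Pool.Agent.TD
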