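import Pool.Agent.TD.T.Stmts

/-!
# T_OVER: every point of `M(H[X])` has a point of `M(L[X])` over it (MP_90358a_ag)
-/

open scoped Topology
open Polynomial

namespace Pool.Agent.TD

theorem td_over (hLift : StmtLift) : StmtOver := by
  intro H L _ _ _ _ _ _ z
  let alg : Algebra H[X] L[X] := (Polynomial.mapRingHom (algebraMap H L)).toAlgebra
  have halg : ∀ f : H[X], algebraMap H[X] L[X] f = f.map (algebraMap H L) := fun f => rfl
  have hcomp : ∀ c : H, algebraMap H[X] L[X] (algebraMap H H[X] c) = algebraMap H L[X] c := by
    intro c
    rw [halg, Polynomial.algebraMap_apply, Polynomial.algebraMap_apply, Polynomial.map_C]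
    rfl
  have tow : IsScalarTower H H[X] L[X] :=
    IsScalarTower.of_algebraMap_eq fun c => (hcomp c).symm
  have hint : Algebra.IsIntegral H[X] L[X] := by
    refine ⟨fun p => ?_⟩
    induction p using Polynomial.induction_on' with
    | add p q hp hq => exact hp.add hq
    | monomial n a =>
      rw [← Polynomial.C_mul_X_pow_eq_monomial]
      have h1 : IsIntegral H a := (Algebra.IsAlgebraic.isAlgebraic a).isIntegral
      have h2 : IsIntegral H (C a : L[X]) := by
        obtain ⟨P, hP, hPa⟩ := h1
        refine ⟨P, hP, ?_⟩
        have h3 : (algebraMap H L[X]) = (C : L →+* L[X]).comp (algebraMap H L) := by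
          ext c
          simp [Polynomial.algebraMap_apply]
        rw [h3, ← Polynomial.hom_eval₂, hPa, map_zero]
      have h4 : IsIntegral H[X] (C a : L[X]) := h2.tower_top
      have h5 : IsIntegral H[X] (X : L[X]) := by
        have h6 : (X : L[X]) = algebraMap H[X] L[X] X := by
          rw [halg, Polynomial.map_X]
        rw [h6]
        exact isIntegral_algebraMap
      exact h4.mul (h5.pow n)
  have hinj : Function.Injective (algebraMap H[X] L[X]) := by
    intro f g hfg
    rw [halg, halg] at hfg
    exact Polynomial.map_injective _ (algebraMap H L).injective hfg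
  obtain ⟨w, hw⟩ := hLift H H[X] L[X] hinj z
  exact ⟨w, hw⟩

end Pool.Agent.TD
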