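import Pool.Agent.TD.T.Stmts

/-!
# Block T: values of polynomials in terms of their roots (MP_90358a_ag)
-/

open scoped Topology
open Polynomial

namespace Pool.Agent.TD

/-- (PROD) -/
theorem td_prod : StmtProd := by
  intro H L _ _ _ _ w f
  have h1 : C f.leadingCoeff * (f.roots.map fun a => X - C a).prod = f :=
    C_leadingCoeff_mul_prod_multiset_X_sub_C IsAlgClosed.card_roots_eq_natDegree
  conv_lhs => rw [← h1]
  rw [w.mul, w.mprod, Multiset.map_map]
  rfl

end Pool.Agent.TD
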