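import Pool.Agent.TD.T.Stmts

/-!
# Block T, RES: completed residue fields exist (MP_90358a_ag)
-/

open scoped Topology NNReal
open Polynomial

namespace Pool.Agent.TD

namespace T_RES

variable {K A : Type} [NormedField K] [CommRing A] [Algebra K A]

/-- The valuation of `A` given by a point. -/
noncomputable def val (y : Ber K A) : Valuation A ℝ≥0 where
  toFun a := ⟨y.v a, y.nonneg a⟩
  map_zero' := Subtype.ext y.zero
  map_one' := Subtype.ext y.one
  map_mul' a b := Subtype.ext (y.mul a b)
  map_add_le_max' a b := by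
    rw [← NNReal.coe_le_coe, NNReal.coe_max]
    exact y.add a b

theorem val_apply (y : Ber K A) (a : A) : ((val y a : ℝ≥0) : ℝ) = y.v a := rfl

/-- A valuation of a field with values in `ℝ≥0` as an absolute value. -/
noncomputable def absOf {L : Type} [Field L] (v : Valuation L ℝ≥0) : AbsoluteValue L ℝ where
  toFun x := (v x : ℝ)
  map_mul' x y := by rw [map_mul, NNReal.coe_mul]
  nonneg' x := NNReal.coe_nonneg _
  eq_zero' x := by rw [NNReal.coe_eq_zero, Valuation.zero_iff]
  add_le' x y := by
    have h1 : (v (x + y) : ℝ) ≤ max (v x : ℝ) (v y : ℝ) := by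
      have h := v.map_add x y
      rw [← NNReal.coe_le_coe, NNReal.coe_max] at h
      exact h
    exact h1.trans (max_le_add_of_nonneg (NNReal.coe_nonneg _) (NNReal.coe_nonneg _))

theorem absOf_apply {L : Type} [Field L] (v : Valuation L ℝ≥0) (x : L) :
    absOf v x = (v x : ℝ) := rfl

theorem absOf_add {L : Type} [Field L] (v : Valuation L ℝ≥0) (x y : L) :
    absOf v (x + y) ≤ max (absOf v x) (absOf v y) := by
  have h := v.map_add x y
  rw [← NNReal.coe_le_coe, NNReal.coe_max] at h
  exact h

/-- The completion for an ultrametric absolute value is ultrametric. -/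
theorem ultra {L : Type} [Field L] (w : AbsoluteValue L ℝ)
    (h : ∀ x y, w (x + y) ≤ max (w x) (w y)) : IsUltrametricDist w.Completion := by
  apply IsUltrametricDist.isUltrametricDist_of_forall_norm_add_le_max_norm
  intro x y
  induction x, y using UniformSpace.Completion.induction_on₂ with
  | hp =>
    exact isClosed_le (continuous_norm.comp (continuous_fst.add continuous_snd))
      ((continuous_norm.comp continuous_fst).max (continuous_norm.comp continuous_snd))
  | ih a b =>
    rw [← UniformSpace.Completion.coe_add, UniformSpace.Completion.norm_coe,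
      UniformSpace.Completion.norm_coe, UniformSpace.Completion.norm_coe]
    exact h a.ofAbs b.ofAbs

end T_RES

open T_RES in
theorem td_res : StmtRes := by
  intro K A _ _ _ y
  let p : Ideal A := (val y).supp
  have hp : p.IsPrime := inferInstance
  let vR : Valuation (A ⧸ p) ℝ≥0 := (val y).onQuot le_rfl
  have hvR : ∀ a : A, (vR (Ideal.Quotient.mk p a) : ℝ) = y.v a := fun a => rfl
  have hsupp : vR.supp = ⊥ := (val y).supp_quot_supp
  have hS : nonZeroDivisors (A ⧸ p) ≤ vR.supp.primeCompl := by
    intro s hs
    rw [Ideal.mem_primeCompl_iff, hsupp, Ideal.mem_bot]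
    exact nonZeroDivisors.ne_zero hs
  let L : Type := FractionRing (A ⧸ p)
  let vL : Valuation L ℝ≥0 := vR.extendToLocalization hS L
  have hvL : ∀ x : A ⧸ p, vL (algebraMap (A ⧸ p) L x) = vR x := fun x =>
    vR.extendToLocalization_apply_map_apply hS L x
  let w : AbsoluteValue L ℝ := absOf vL
  let ι : A →+* w.Completion :=
    (UniformSpace.Completion.coeRingHom : WithAbs w →+* w.Completion).comp
      ((WithAbs.equiv w).symm.toRingHom.comp
        ((algebraMap (A ⧸ p) L).comp (Ideal.Quotient.mk p)))
  have hι : ∀ a : A, ι a = ((WithAbs.toAbs w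
      (algebraMap (A ⧸ p) L (Ideal.Quotient.mk p a)) : WithAbs w) : w.Completion) :=
    fun a => rfl
  have hn : ∀ a : A, ‖ι a‖ = y.v a := by
    intro a
    rw [hι a, UniformSpace.Completion.norm_coe, WithAbs.norm_toAbs_eq]
    show ((vL (algebraMap (A ⧸ p) L (Ideal.Quotient.mk p a)) : ℝ≥0) : ℝ) = y.v a
    rw [hvL]
    exact hvR a
  refine ⟨w.Completion, inferInstance, ultra w (absOf_add vL), inferInstance, ι, hn, ?_⟩
  intro h ε hε
  obtain ⟨x, hx⟩ := UniformSpace.Completion.denseRange_coe.exists_dist_lt h hε
  obtain ⟨a', b', hb', hab⟩ := IsFractionRing.div_surjective (A := A ⧸ p) x.ofAbs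
  obtain ⟨a, rfl⟩ := Ideal.Quotient.mk_surjective a'
  obtain ⟨b, rfl⟩ := Ideal.Quotient.mk_surjective b'
  refine ⟨a, b, ?_, ?_⟩
  · intro h0
    have h1 : y.v b = 0 := by
      rw [← hn b, h0, norm_zero]
    have h2 : b ∈ p := by
      show b ∈ (val y).supp
      rw [Valuation.mem_supp_iff]
      exact Subtype.ext h1
    exact nonZeroDivisors.ne_zero hb' (Ideal.Quotient.eq_zero_iff_mem.2 h2)
  · have h1 : ι a / ι b = (x : w.Completion) := by
      have h2 : x = WithAbs.toAbs w (algebraMap (A ⧸ p) L (Ideal.Quotient.mk p a))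
          / WithAbs.toAbs w (algebraMap (A ⧸ p) L (Ideal.Quotient.mk p b)) := by
        rw [← WithAbs.toAbs_div, hab]
      have h3 : (UniformSpace.Completion.coeRingHom : WithAbs w →+* w.Completion) x
          = (UniformSpace.Completion.coeRingHom : WithAbs w →+* w.Completion)
            (WithAbs.toAbs w (algebraMap (A ⧸ p) L (Ideal.Quotient.mk p a)))
          / (UniformSpace.Completion.coeRingHom : WithAbs w →+* w.Completion)
            (WithAbs.toAbs w (algebraMap (A ⧸ p) L (Ideal.Quotient.mk p b))) := by
        rw [← map_div₀, ← h2]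
      exact h3.symm
    rw [h1, ← dist_eq_norm]
    exact hx

end Pool.Agent.TD
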