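import Pool.Agent.TD.T.Stmts

/-!
# Block T (MP_90358a_ag): existence of the disc points `IsDisc P t e` (module TD_T_T2)
-/

open scoped Topology
open Polynomial

namespace Pool.Agent.TD

namespace T_T2

theorem one_le_prod (s : Multiset ℝ) (h : ∀ x ∈ s, 1 ≤ x) : 1 ≤ s.prod := by
  induction s using Multiset.induction_on with
  | empty => simp
  | cons a s ih =>
    rw [Multiset.prod_cons]
    have h1 := h a (Multiset.mem_cons_self a s)
    have h2 := ih fun x hx => h x (Multiset.mem_cons_of_mem hx)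
    nlinarith

theorem le_prod (s : Multiset ℝ) (r : ℝ) (h1 : 1 ≤ r) (h : ∀ x ∈ s, r ≤ x) (hs : s ≠ 0) :
    r ≤ s.prod := by
  obtain ⟨a, ha⟩ := Multiset.exists_mem_of_ne_zero hs
  obtain ⟨s', rfl⟩ := Multiset.exists_cons_of_mem ha
  rw [Multiset.prod_cons]
  have h2 := h a (Multiset.mem_cons_self a s')
  have h3 := one_le_prod s' fun x hx => h1.trans (h x (Multiset.mem_cons_of_mem hx))
  nlinarith

/-- The value of the Gauss point with centre `a` and radius `ρ` at a polynomial with leading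
coefficient of absolute value `l` and roots `s`. -/
noncomputable def phi {L : Type} (nv : L → ℝ) (l : ℝ) (s : Multiset L) (ρ : ℝ) : ℝ :=
  l * (s.map fun b => max ρ (nv b)).prod

theorem continuous_phi {L : Type} (nv : L → ℝ) (l : ℝ) (s : Multiset L) :
    Continuous (phi nv l s) := by
  unfold phi
  refine continuous_const.mul ?_
  exact continuous_multiset_prod (f := fun (b : L) (ρ : ℝ) => max ρ (nv b)) s
    fun b _ => continuous_id.max continuous_const

theorem phi_zero {L : Type} (nv : L → ℝ) (l : ℝ) (s : Multiset L) (a : L) (ha : a ∈ s)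
    (h : nv a = 0) : phi nv l s 0 = 0 := by
  unfold phi
  have : (s.map fun b => max (0 : ℝ) (nv b)).prod = 0 := by
    apply Multiset.prod_eq_zero
    rw [Multiset.mem_map]
    exact ⟨a, ha, by rw [h, max_self]⟩
  rw [this, mul_zero]

theorem exists_phi_eq {L : Type} (nv : L → ℝ) (l : ℝ) (s : Multiset L) (a : L) (ha : a ∈ s)
    (h : nv a = 0) (hl : 0 < l) (t : ℝ) (ht : 0 ≤ t) : ∃ ρ, 0 ≤ ρ ∧ phi nv l s ρ = t := by
  set R : ℝ := max 1 (t / l) with hR
  have hR1 : 1 ≤ R := le_max_left _ _
  have hR2 : t / l ≤ R := le_max_right _ _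
  have h0 := phi_zero nv l s a ha h
  have h1 : t ≤ phi nv l s R := by
    have h2 : R ≤ (s.map fun b => max R (nv b)).prod := by
      apply le_prod _ _ hR1
      · intro x hx
        rw [Multiset.mem_map] at hx
        obtain ⟨b, -, rfl⟩ := hx
        exact le_max_left _ _
      · intro h3
        rw [Multiset.map_eq_zero] at h3
        rw [h3] at ha
        exact Multiset.notMem_zero _ ha
    unfold phi
    calc t = l * (t / l) := by field_simp
      _ ≤ l * R := by exact mul_le_mul_of_nonneg_left hR2 hl.le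
      _ ≤ _ := mul_le_mul_of_nonneg_left h2 hl.le
  have h3 := intermediate_value_Icc (show (0 : ℝ) ≤ R by linarith)
    (continuous_phi nv l s).continuousOn
  obtain ⟨ρ, hρ, hρ'⟩ := h3 ⟨by rw [h0]; exact ht, h1⟩
  exact ⟨ρ, hρ.1, hρ'⟩

theorem v_pos {H L : Type} [NormedField H] [Field L] [Algebra H L] (N : Ber H L) (x : L)
    (hx : x ≠ 0) : 0 < N.v x := by
  have h1 : N.v x * N.v x⁻¹ = 1 := by
    rw [← N.mul, mul_inv_cancel₀ hx, N.one]
  have h2 : N.v x ≠ 0 := by
    intro h
    rw [h, zero_mul] at h1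
    exact zero_ne_one h1
  exact lt_of_le_of_ne (N.nonneg x) (Ne.symm h2)

end T_T2

open T_T2 in
/-- (T2) -/
theorem td_t2 (hExt : StmtExt) (hGauss : StmtGauss) (hProd : StmtProd) (hCore : StmtCore) :
    StmtT2 := by
  intro H _ _ _ P hP t ht
  let L := AlgebraicClosure H
  obtain ⟨N, hN⟩ := hExt H L
  have hdeg : P.degree ≠ 0 := hP.degree_pos.ne'
  obtain ⟨a, ha⟩ := IsAlgClosed.exists_aeval_eq_zero L P hdeg
  have hP0 : P ≠ 0 := hP.ne_zero
  set PL : L[X] := P.map (algebraMap H L) with hPL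
  have hPL0 : PL ≠ 0 := by
    rw [hPL]
    exact (Polynomial.map_ne_zero_iff (algebraMap H L).injective).2 hP0
  have hlc : 0 < N.v PL.leadingCoeff := v_pos N _ (leadingCoeff_ne_zero.2 hPL0)
  have haR : a ∈ PL.roots := by
    rw [mem_roots hPL0, IsRoot.def, hPL, eval_map_algebraMap]
    exact ha
  obtain ⟨ρ, hρ, hρt⟩ := exists_phi_eq (fun b => N.v (a - b)) (N.v PL.leadingCoeff) PL.roots a haR
    (by show N.v (a - a) = 0; rw [sub_self, N.zero]) hlc t ht
  obtain ⟨g, hg⟩ := hGauss H L N a ρ hρ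
  have hval : g.v PL = t := by
    rw [hProd H L g PL, hg.const, ← hρt]
    unfold phi
    congr 2
    apply Multiset.map_congr rfl
    intro b _
    exact hg.lin b
  let e : Ber H H[X] := Ber.res (Polynomial.mapAlgHom (Algebra.ofId H L)) g
  have he : ∀ f : H[X], e.v f = g.v (f.map (algebraMap H L)) := fun f => rfl
  refine ⟨e, ?_, ?_⟩
  · rw [he]
    exact hval
  · intro z hz
    obtain ⟨w, hw, hwa⟩ := hCore H L P hP a ha N ρ g hρ hg z (by rw [← hPL, hval]; exact hz)
    have hwg : w ≤ g := by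
      apply hg.top w _ hwa
      intro b
      have h1 := hN (Ber.res (Polynomial.CAlgHom (R := H) (A := L)) w)
      rw [← h1]
      rfl
    intro f
    rw [he, ← hw f]
    exact hwg _

end Pool.Agent.TD
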