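import Pool.Agent.TD.T.Stmts

/-!
# Block T, T3: the disc of a polynomial which separates two comparable points
-/

open scoped Topology
open Polynomial

namespace Pool.Agent.TD

namespace T_T3

section
variable {H L : Type} [NormedField H] [Field L] [Algebra H L]

/-- constants have the value given by the unique absolute value of `L` -/
theorem constv {N : Ber H L} (hN : ∀ N' : Ber H L, N' = N) (E : Ber H L[X]) (b : L) :
    E.v (C b) = N.v b := by
  have h := hN (Ber.res (Polynomial.CAlgHom (R := H) (A := L)) E)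
  have h1 := congrArg (fun M : Ber H L => M.v b) h
  exact h1

theorem diff_le {N : Ber H L} (hN : ∀ N' : Ber H L, N' = N) (E : Ber H L[X]) (a b : L) :
    N.v (a - b) ≤ max (E.v (X - C a)) (E.v (X - C b)) := by
  rw [← constv hN E, C_sub]
  have h : (C a - C b : L[X]) = (X - C b) - (X - C a) := by ring
  rw [h, max_comm]
  exact E.sub _ _

theorem lin_le {N : Ber H L} (hN : ∀ N' : Ber H L, N' = N) (E : Ber H L[X]) (a b : L) :
    E.v (X - C a) ≤ max (E.v (X - C b)) (N.v (a - b)) := by
  rw [← constv hN E, C_sub]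
  have h : (X - C a : L[X]) = (X - C b) - (C a - C b) := by ring
  rw [h]
  exact E.sub _ _

end

end T_T3

open T_T3

theorem td_t3 (hExt : StmtExt) (hGauss : StmtGauss) (hOver : StmtOver) (hConj : StmtConj)
    (hProd : StmtProd) (hCore : StmtCore) : StmtT3 := by
  classical
  intro H _ _ _ P hP z e hze hlt
  let L := AlgebraicClosure H
  obtain ⟨N, hN⟩ := hExt H L
  obtain ⟨E, hE⟩ := hOver H L e
  -- roots
  have hdeg : ∀ Q : H[X], Irreducible Q → (Q.map (algebraMap H L)) ≠ 0 := by
    intro Q hQ
    exact (Polynomial.map_ne_zero_iff (algebraMap H L).injective).2 hQ.ne_zero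
  have hroot : ∀ Q : H[X], Irreducible Q → ∀ b, b ∈ (Q.map (algebraMap H L)).roots ↔
      aeval b Q = 0 := by
    intro Q hQ b
    rw [mem_roots (hdeg Q hQ), IsRoot.def, eval_map_algebraMap]
  have hex : ∃ a : L, a ∈ (P.map (algebraMap H L)).roots := by
    have h1 : (P.map (algebraMap H L)).degree ≠ 0 := by
      rw [degree_map]
      exact hP.degree_pos.ne'
    obtain ⟨a, ha⟩ := IsAlgClosed.exists_root _ h1
    exact ⟨a, (mem_roots (hdeg P hP)).2 ha⟩
  obtain ⟨a, ha, hmin⟩ := Finset.exists_min_image (P.map (algebraMap H L)).roots.toFinset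
    (fun b => E.v (X - C b)) (by
      obtain ⟨a, ha⟩ := hex
      exact ⟨a, Multiset.mem_toFinset.2 ha⟩)
  rw [Multiset.mem_toFinset] at ha
  have hmin' : ∀ b, b ∈ (P.map (algebraMap H L)).roots → E.v (X - C a) ≤ E.v (X - C b) :=
    fun b hb => hmin b (Multiset.mem_toFinset.2 hb)
  set ρ : ℝ := E.v (X - C a) with hρ
  have hρ0 : 0 ≤ ρ := E.nonneg _
  obtain ⟨g, hg⟩ := hGauss H L N a ρ hρ0
  have hEg : E ≤ g := hg.top E (fun b => constv hN E b) le_rfl
  -- the function φ
  have hval : ∀ (Q : H[X]) (t : ℝ) (g' : Ber H L[X]), IsGauss N a t g' →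
      g'.v (Q.map (algebraMap H L)) = N.v (Q.map (algebraMap H L)).leadingCoeff *
        ((Q.map (algebraMap H L)).roots.map fun b => max t (N.v (a - b))).prod := by
    intro Q t g' hg'
    rw [hProd H L g' (Q.map (algebraMap H L)), hg'.const]
    simp only [hg'.lin]
  let φ : ℝ → ℝ := fun t => N.v (P.map (algebraMap H L)).leadingCoeff *
        ((P.map (algebraMap H L)).roots.map fun b => max t (N.v (a - b))).prod
  have hφc : Continuous φ := by
    refine continuous_const.mul ?_
    exact continuous_multiset_prod _ fun b _ => continuous_id.max continuous_const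
  have hφρ : z.v P < φ ρ := by
    have h1 : e.v P ≤ φ ρ := by
      show e.v P ≤ N.v (P.map (algebraMap H L)).leadingCoeff *
        ((P.map (algebraMap H L)).roots.map fun b => max ρ (N.v (a - b))).prod
      rw [← hval P ρ g hg, ← hE P]
      exact hEg _
    exact hlt.trans_le h1
  have hρpos : 0 < ρ := by
    rcases hρ0.eq_or_lt with h | h
    · exfalso
      have h0 : φ ρ = 0 := by
        show N.v (P.map (algebraMap H L)).leadingCoeff *
          ((P.map (algebraMap H L)).roots.map fun b => max ρ (N.v (a - b))).prod = 0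
        have h1 : ((P.map (algebraMap H L)).roots.map fun b => max ρ (N.v (a - b))).prod = 0 := by
          refine Multiset.prod_eq_zero ?_
          rw [Multiset.mem_map]
          refine ⟨a, ha, ?_⟩
          rw [sub_self, N.zero, ← h, max_self]
        rw [h1, mul_zero]
      rw [h0] at hφρ
      exact absurd hφρ (not_lt.2 (z.nonneg P))
    · exact h
  obtain ⟨ρ', ⟨hρ'1, hρ'2⟩, hρ'3⟩ : ∃ t, (0 ≤ t ∧ t < ρ) ∧ z.v P < φ t := by
    have h1 : ∀ᶠ t in 𝓝[<] ρ, z.v P < φ t :=
      (hφc.continuousAt.eventually (lt_mem_nhds hφρ)).filter_mono nhdsWithin_le_nhds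
    have h2 : ∀ᶠ t in 𝓝[<] ρ, t < ρ := self_mem_nhdsWithin
    have h3 : ∀ᶠ t in 𝓝[<] ρ, 0 < t :=
      (lt_mem_nhds hρpos : ∀ᶠ t in 𝓝 ρ, 0 < t).filter_mono nhdsWithin_le_nhds
    obtain ⟨t, ht1, ht2, ht3⟩ := (h1.and (h2.and h3)).exists
    exact ⟨t, ⟨ht3.le, ht2⟩, ht1⟩
  obtain ⟨g', hg'⟩ := hGauss H L N a ρ' hρ'1
  have haP : aeval a P = 0 := (hroot P hP a).1 ha
  obtain ⟨w, hw, hwa⟩ := hCore H L P hP a haP N ρ' g' hρ'1 hg' z (by
    rw [hval P ρ' g' hg']
    exact hρ'3.le)
  -- the claim for irreducible polynomials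
  have hclaim : ∀ Q : H[X], Irreducible Q → g.v (Q.map (algebraMap H L)) ≤ e.v Q := by
    intro Q hQ
    by_contra hc
    have hc' : e.v Q < g.v (Q.map (algebraMap H L)) := not_le.1 hc
    -- a root `b` with a small value
    have hb : ∃ b ∈ (Q.map (algebraMap H L)).roots, E.v (X - C b) < max ρ (N.v (a - b)) := by
      by_contra hnb
      push Not at hnb
      have h1 : g.v (Q.map (algebraMap H L)) ≤ E.v (Q.map (algebraMap H L)) := by
        rw [hval Q ρ g hg, hProd H L E (Q.map (algebraMap H L)), constv hN E]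
        refine mul_le_mul_of_nonneg_left ?_ (N.nonneg _)
        exact Multiset.prod_map_le_prod_map₀ _ _ (fun b _ => le_max_of_le_left hρ0)
          (fun b hb => hnb b hb)
      rw [hE Q] at h1
      exact absurd h1 (not_le.2 hc')
    obtain ⟨b, hb1, hb2⟩ := hb
    have k1 := diff_le hN E a b
    have k2 := lin_le hN E a b
    rw [← hρ] at k1 k2
    have k3 : N.v (a - b) ≤ ρ := by
      by_contra h
      have h' : ρ < N.v (a - b) := not_le.1 h
      rw [max_eq_right h'.le] at hb2
      rcases le_max_iff.1 k1 with h3 | h3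
      · exact absurd h3 (not_le.2 h')
      · exact absurd h3 (not_le.2 hb2)
    rw [max_eq_left k3] at hb2
    have k4 : ρ ≤ N.v (a - b) := by
      rcases le_max_iff.1 k2 with h3 | h3
      · exact absurd h3 (not_le.2 hb2)
      · exact h3
    -- all the roots of `Q` are far from `a`
    have hfar : ∀ b' ∈ (Q.map (algebraMap H L)).roots, ρ ≤ N.v (a - b') := by
      intro b' hb'
      by_contra h
      have h' : N.v (a - b') < ρ := not_le.1 h
      obtain ⟨τ, hτ1, hτ2, -⟩ := hConj H L Q hQ b b' ((hroot Q hQ b).1 hb1)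
        ((hroot Q hQ b').1 hb')
      have h1 : N.v (τ.symm a - b) = N.v (a - b') := by
        rw [← hτ2 N, map_sub, hτ1, AlgEquiv.apply_symm_apply]
      have h2 : τ.symm a ∈ (P.map (algebraMap H L)).roots := by
        rw [hroot P hP]
        have h3 := Polynomial.aeval_algHom_apply (τ.symm : L →ₐ[H] L) a P
        rw [haP, map_zero] at h3
        exact h3
      have h4 := lin_le hN E (τ.symm a) b
      have h5 := hmin' _ h2
      rw [h1] at h4
      exact absurd (h5.trans h4) (not_le.2 (max_lt hb2 h'))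
    have hle : g.v (Q.map (algebraMap H L)) ≤ z.v Q := by
      rw [← hw Q, hval Q ρ g hg, hProd H L w (Q.map (algebraMap H L)), constv hN w]
      refine mul_le_mul_of_nonneg_left ?_ (N.nonneg _)
      refine Multiset.prod_map_le_prod_map₀ _ _ (fun b _ => le_max_of_le_left hρ0)
          (fun b' hb' => ?_)
      have h1 := hfar b' hb'
      rw [max_eq_right h1]
      rcases le_max_iff.1 (diff_le hN w a b') with h3 | h3
      · exact absurd (h1.trans (h3.trans hwa)) (not_le.2 hρ'2)
      · exact h3
    exact absurd (hle.trans (hze Q)) (not_le.2 hc')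
  -- the claim for all polynomials
  have hall : ∀ f : H[X], g.v (f.map (algebraMap H L)) ≤ e.v f := by
    intro f
    induction f using WfDvdMonoid.induction_on_irreducible with
    | zero =>
      rw [Polynomial.map_zero, g.zero, e.zero]
    | unit u hu =>
      obtain ⟨c, hc, rfl⟩ := Polynomial.isUnit_iff.1 hu
      have h1 : g.v ((C c : H[X]).map (algebraMap H L)) = ‖c‖ := by
        rw [map_C]
        exact g.ext c
      have h2 : e.v (C c : H[X]) = ‖c‖ := e.ext c
      rw [h1, h2]
    | mul f i hf hi ih =>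
      rw [Polynomial.map_mul, g.mul, e.mul]
      exact mul_le_mul (hclaim i hi) ih (g.nonneg _) (e.nonneg _)
  refine ⟨rfl, fun z' hz' => ?_⟩
  have h1 : z'.v P ≤ g.v (P.map (algebraMap H L)) := by
    refine hz'.trans ?_
    rw [← hE P]
    exact hEg _
  obtain ⟨w', hw', hwa'⟩ := hCore H L P hP a haP N ρ g hρ0 hg z' h1
  have h2 : w' ≤ g := hg.top w' (fun b => constv hN w' b) hwa'
  intro f
  rw [← hw' f]
  exact (h2 _).trans (hall f)

end Pool.Agent.TD
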