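import Pool.Agent.TD.T.Stmts

/-!
# Block T, TREE: the tree structure of `M(H[X])`
-/

open scoped Topology
open Polynomial

namespace Pool.Agent.TD

namespace T_TREE

variable {H : Type} [NormedField H]

/-- constants -/
theorem v_C (z : Ber H H[X]) (c : H) : z.v (C c) = ‖c‖ := z.ext c

/-- points which agree on the monic irreducible polynomials agree everywhere -/
theorem agree {z e : Ber H H[X]} (h : ∀ P : H[X], P.Monic → Irreducible P → z.v P = e.v P)
    (f : H[X]) : z.v f = e.v f := by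
  induction f using WfDvdMonoid.induction_on_irreducible with
  | zero => rw [z.zero, e.zero]
  | unit u hu =>
    obtain ⟨c, -, rfl⟩ := Polynomial.isUnit_iff.1 hu
    rw [v_C, v_C]
  | mul a i _ hi ih =>
    rw [z.mul, e.mul, ih]
    congr 1
    have h1 := h (i * C (leadingCoeff i)⁻¹) (monic_mul_leadingCoeff_inv hi.ne_zero)
      (irreducible_mul_leadingCoeff_inv.2 hi)
    rw [z.mul, e.mul, v_C, v_C] at h1
    have h2 : ‖(leadingCoeff i)⁻¹‖ ≠ 0 :=
      norm_ne_zero_iff.2 (inv_ne_zero (leadingCoeff_ne_zero.2 hi.ne_zero))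
    exact mul_right_cancel₀ h2 h1

theorem exists_irr {z e : Ber H H[X]} (h : z < e) :
    ∃ P : H[X], P.Monic ∧ Irreducible P ∧ z.v P < e.v P := by
  by_contra hc
  push Not at hc
  have h1 : z = e := by
    refine Ber.ext_v (agree fun P hm hi => le_antisymm (h.le P) (hc P hm hi))
  exact h.ne h1

end T_TREE

open T_TREE in
/-- the tree structure of `M(H[X])` -/
theorem td_tree (hT2 : StmtT2) (hT3 : StmtT3) : StmtTree := by
  classical
  have sep : ∀ (H : Type) [NormedField H] [IsUltrametricDist H] [CompleteSpace H]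
      (z e : Ber H H[X]), z < e → ∃ P : H[X], P.Monic ∧ Irreducible P ∧ z.v P < e.v P ∧
        IsDisc P (e.v P) e := by
    intro H _ _ _ z e h
    obtain ⟨P, hm, hi, hlt⟩ := exists_irr h
    exact ⟨P, hm, hi, hlt, hT3 H P hi z e h.le hlt⟩
  have between : ∀ (H : Type) [NormedField H] [IsUltrametricDist H] [CompleteSpace H]
      (z e : Ber H H[X]), z < e → ∃ m, z < m ∧ m < e := by
    intro H _ _ _ z e h
    obtain ⟨P, -, hi, hlt, hd⟩ := sep H z e h
    obtain ⟨m, hm⟩ := hT2 H P hi ((z.v P + e.v P) / 2) (by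
      have h1 := z.nonneg P
      have h2 := e.nonneg P
      linarith)
    refine ⟨m, lt_of_le_of_ne (hm.le z (by linarith)) ?_, lt_of_le_of_ne (hd.le m ?_) ?_⟩
    · rintro rfl
      have := hm.val
      linarith
    · rw [hm.val]
      linarith
    · rintro rfl
      have := hm.val
      linarith
  have comp : ∀ (H : Type) [NormedField H] [IsUltrametricDist H] [CompleteSpace H]
      (z e₁ e₂ : Ber H H[X]), z ≤ e₁ → z ≤ e₂ → e₁ ≤ e₂ ∨ e₂ ≤ e₁ := by
    intro H _ _ _ z e₁ e₂ h1 h2
    rcases eq_or_lt_of_le h1 with h | h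
    · left
      rw [← h]
      exact h2
    · obtain ⟨P, -, hi, hlt, hd⟩ := sep H z e₁ h
      rcases le_or_gt (e₂.v P) (e₁.v P) with h3 | h3
      · right
        exact hd.le e₂ h3
      · left
        exact (hT3 H P hi z e₂ h2 (hlt.trans h3)).le e₁ h3.le
  have isOpen : ∀ (H : Type) [NormedField H] [IsUltrametricDist H] [CompleteSpace H]
      (e : Ber H H[X]), IsOpen (Set.Iio e) := by
    intro H _ _ _ e
    rw [isOpen_iff_mem_nhds]
    intro z hz
    obtain ⟨P, -, -, hlt, hd⟩ := sep H z e hz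
    have h1 : IsOpen {w : Ber H H[X] | w.v P < e.v P} :=
      isOpen_lt (Ber.continuous_v P) continuous_const
    refine Filter.mem_of_superset (h1.mem_nhds hlt) ?_
    intro w (hw : w.v P < e.v P)
    refine lt_of_le_of_ne (hd.le w hw.le) ?_
    rintro rfl
    exact lt_irrefl _ hw
  refine ⟨sep, between, comp, isOpen, ?_, ?_, ?_⟩
  · intro H _ _ _ e D hDc hDe _ _ hup W hW
    obtain ⟨W', hW'W, hW'o, heW'⟩ := mem_nhds_iff.1 hW
    have hC : IsCompact (D \ W') :=
      (Ber.isCompact_Iic e).of_isClosed_subset (hDc.sdiff hW'o) (Set.diff_subset.trans hDe)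
    have hlt : ∀ z ∈ D \ W', z < e := by
      intro z hz
      refine lt_of_le_of_ne (hDe hz.1) ?_
      rintro rfl
      exact hz.2 heW'
    have hm : ∀ z : Ber H H[X], ∃ m, z ∈ D \ W' → z < m ∧ m < e := by
      intro z
      by_cases hz : z ∈ D \ W'
      · obtain ⟨m, h1, h2⟩ := between H z e (hlt z hz)
        exact ⟨m, fun _ => ⟨h1, h2⟩⟩
      · exact ⟨z, fun h => absurd h hz⟩
    choose m hm using hm
    obtain ⟨t, ht1, ht2⟩ := hC.elim_nhds_subcover (fun z => Set.Iio (m z))
      (fun z hz => (isOpen H (m z)).mem_nhds (hm z hz).1)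
    set F : Finset (Ber H H[X]) := t.image m with hF
    have hFp : ∀ s ∈ F, s < e ∧ s ∈ D := by
      intro s hs
      obtain ⟨z, hz, rfl⟩ := Finset.mem_image.1 hs
      have hzD := ht1 z hz
      exact ⟨(hm z hzD).2, hup z hzD.1 _ (hm z hzD).1.le (hm z hzD).2.le⟩
    refine ⟨F.filter fun s => Maximal (· ∈ F) s, ?_, ?_, ?_⟩
    · intro s hs
      exact hFp s (Finset.mem_filter.1 hs).1
    · intro s hs u hu hsu
      rw [Set.disjoint_left]
      intro w hws hwu
      have hs' := (Finset.mem_filter.1 hs).2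
      have hu' := (Finset.mem_filter.1 hu).2
      rcases comp H w s u hws hwu with h | h
      · exact hsu (le_antisymm h (hs'.2 hu'.1 h))
      · exact hsu (le_antisymm (hu'.2 hs'.1 h) h)
    · rintro x ⟨hxD, hx⟩
      by_contra hxW
      have hxC : x ∈ D \ W' := ⟨hxD, fun h => hxW (hW'W h)⟩
      obtain ⟨z, hz, hxz⟩ := Set.mem_iUnion₂.1 (ht2 hxC)
      obtain ⟨s, hs1, hs2⟩ := F.exists_le_maximal (Finset.mem_image_of_mem m hz)
      refine hx (Set.mem_iUnion₂.2 ⟨s, Finset.mem_filter.2 ⟨hs2.1, hs2⟩, ?_⟩)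
      exact lt_of_lt_of_le hxz hs1
  · intro H _ _ _ r η e z hη he hne hze
    have h1 : z.v X ≤ r := he ▸ hze X
    rcases eq_or_lt_of_le h1 with h | h
    · exact h
    · exfalso
      have h2 := hT3 H X irreducible_X z e hze (by rw [he]; exact h)
      apply hne
      refine le_antisymm (hη.le e he.le) (h2.le η ?_)
      rw [hη.val, he]
  · intro H _ _ _ z r hr
    obtain ⟨η, hη⟩ := hT2 H X irreducible_X r ((z.nonneg X).trans hr)
    exact ⟨η, hη, hη.le z hr⟩

end Pool.Agent.TD
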