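import Pool.Agent.TD.T.Clp
import Pool.Agent.TD.T.T2
import Pool.Agent.TD.T.T3
import Pool.Agent.TD.T.Tree
import Pool.Agent.TD.T.Ext
import Pool.Agent.TD.T.Res
import Pool.Agent.TD.T.Lift
import Pool.Agent.TD.T.Gauss
import Pool.Agent.TD.T.Over
import Pool.Agent.TD.T.Prod
import Pool.Agent.TD.T.Conj
import Pool.Agent.TD.T.Core

/-! Block T: everything, unconditional. -/

namespace Pool.Agent.TD

theorem stmtExt : StmtExt := td_ext
theorem stmtRes : StmtRes := td_res
theorem stmtLift : StmtLift := td_lift stmtExt stmtRes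
theorem stmtGauss : StmtGauss := td_gauss
theorem stmtOver : StmtOver := td_over stmtLift
theorem stmtProd : StmtProd := td_prod
theorem stmtConj : StmtConj := td_conj stmtExt
theorem stmtClp : StmtClp := td_clp stmtExt
theorem stmtCore : StmtCore := td_core stmtOver stmtConj stmtProd
theorem stmtT2 : StmtT2 := td_t2 stmtExt stmtGauss stmtProd stmtCore
theorem stmtT3 : StmtT3 := td_t3 stmtExt stmtGauss stmtOver stmtConj stmtProd stmtCore
theorem stmtTree : StmtTree := td_tree stmtT2 stmtT3

end Pool.Agent.TD
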