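import Pool.Agent.TD.T.Basic

/-!
# Block T: the tree `M(H[X])` over a complete non-archimedean field `H` (MP_90358a_ag)

`H` is complete and ultrametric; the trivial absolute value is allowed.  `Set.Iic e = {z ≤ e}` is
the disc `Δ_e`.  Proofs in `Pool/Agent/TD/T/PAPER.md`.
-/

open scoped Topology
open Polynomial

namespace Pool.Agent.TD

/-- `H` (with `ι`) is the completed residue field of the point `y`. -/
structure IsRes {K A H : Type} [NormedField K] [CommRing A] [Algebra K A] [NormedField H]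
    (y : Ber K A) (ι : A →+* H) : Prop where
  norm : ∀ a, ‖ι a‖ = y.v a
  dense : ∀ (h : H) (ε : ℝ), 0 < ε → ∃ a b : A, ι b ≠ 0 ∧ ‖h - ι a / ι b‖ < ε

/-- `g` is the Gauss point of `M(L[X])` with centre `a` and radius `ρ`, where `N` is an absolute
value of the field `L`. -/
structure IsGauss {H L : Type} [NormedField H] [Field L] [Algebra H L] (N : Ber H L) (a : L)
    (ρ : ℝ) (g : Ber H L[X]) : Prop where
  lin : ∀ b, g.v (X - C b) = max ρ (N.v (a - b))
  const : ∀ b, g.v (C b) = N.v b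
  top : ∀ w : Ber H L[X], (∀ b, w.v (C b) = N.v b) → w.v (X - C a) ≤ ρ → w ≤ g

/-- `w` in `M(L[X])` lies over `z` in `M(H[X])`. -/
def Over {H L : Type} [NormedField H] [Field L] [Algebra H L] (w : Ber H L[X]) (z : Ber H H[X]) :
    Prop := ∀ f : H[X], w.v (f.map (algebraMap H L)) = z.v f

/-- `{|P| ≤ t} = {z ≤ e}` and `|P|_e = t`. -/
structure IsDisc {H : Type} [NormedField H] (P : H[X]) (t : ℝ) (e : Ber H H[X]) : Prop where
  val : e.v P = t
  le : ∀ z : Ber H H[X], z.v P ≤ t → z ≤ e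

/-- (EXT) the absolute value of a complete field extends uniquely to an algebraic extension. -/
def StmtExt : Prop := ∀ (H L : Type) [NormedField H] [IsUltrametricDist H] [CompleteSpace H]
  [Field L] [Algebra H L] [Algebra.IsAlgebraic H L], ∃ N : Ber H L, ∀ N' : Ber H L, N' = N

/-- (RES) completed residue fields exist. -/
def StmtRes : Prop := ∀ (K A : Type) [NormedField K] [CommRing A] [Algebra K A] (y : Ber K A),
  ∃ (H : Type) (_ : NormedField H) (_ : IsUltrametricDist H) (_ : CompleteSpace H)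
    (ι : A →+* H), IsRes y ι

/-- (LIFT) = (M4) `M(B) → M(A)` is surjective for an injective integral homomorphism `A → B`. -/
def StmtLift : Prop := ∀ (K A B : Type) [NormedField K] [CommRing A] [Algebra K A] [CommRing B]
  [Algebra K B] [Algebra A B] [IsScalarTower K A B] [Algebra.IsIntegral A B],
  Function.Injective (algebraMap A B) → ∀ z : Ber K A, ∃ w : Ber K B,
    ∀ a, w.v (algebraMap A B a) = z.v a

/-- (GAUSS) Gauss points. -/
def StmtGauss : Prop := ∀ (H L : Type) [NormedField H] [Field L] [Algebra H L] (N : Ber H L)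
  (a : L) (ρ : ℝ), 0 ≤ ρ → ∃ g : Ber H L[X], IsGauss N a ρ g

/-- (OVER) every point of `M(H[X])` has a point of `M(L[X])` over it. -/
def StmtOver : Prop := ∀ (H L : Type) [NormedField H] [IsUltrametricDist H] [CompleteSpace H]
  [Field L] [Algebra H L] [Algebra.IsAlgebraic H L], ∀ z : Ber H H[X], ∃ w : Ber H L[X], Over w z

/-- (CONJ) Galois action: conjugates of points of `M(L[X])`. -/
def StmtConj : Prop := ∀ (H L : Type) [NormedField H] [IsUltrametricDist H] [CompleteSpace H]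
  [Field L] [Algebra H L] [IsAlgClosure H L], ∀ P : H[X], Irreducible P → ∀ a b : L,
  aeval a P = 0 → aeval b P = 0 → ∃ σ : L ≃ₐ[H] L, σ a = b ∧ (∀ (N : Ber H L) x, N.v (σ x) = N.v x) ∧
    ∀ (z : Ber H H[X]) (w : Ber H L[X]), Over w z → ∃ w' : Ber H L[X], Over w' z ∧
      ∀ c : L, w'.v (X - C (σ c)) = w.v (X - C c)

/-- (PROD) values of polynomials in terms of their roots. -/
def StmtProd : Prop := ∀ (H L : Type) [NormedField H] [Field L] [Algebra H L] [IsAlgClosed L]
  (w : Ber H L[X]) (f : L[X]), w.v f = w.v (C f.leadingCoeff) *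
    (f.roots.map fun b => w.v (X - C b)).prod

/-- (CLP) closed points: an irreducible polynomial vanishes at exactly one point. -/
def StmtClp : Prop := ∀ (H : Type) [NormedField H] [IsUltrametricDist H] [CompleteSpace H]
  (P : H[X]), Irreducible P → ∃ c : Ber H H[X], c.v P = 0 ∧ (∀ z : Ber H H[X], z.v P = 0 → z = c) ∧
    (∀ z : Ber H H[X], z ≤ c → z = c) ∧ ∀ f : H[X], c.v f = 0 ↔ P ∣ f

/-- (CORE) -/
def StmtCore : Prop := ∀ (H L : Type) [NormedField H] [IsUltrametricDist H] [CompleteSpace H]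
  [Field L] [Algebra H L] [IsAlgClosure H L], ∀ P : H[X], Irreducible P → ∀ a : L,
  aeval a P = 0 → ∀ (N : Ber H L) (ρ : ℝ) (g : Ber H L[X]), 0 ≤ ρ → IsGauss N a ρ g →
  ∀ z : Ber H H[X], z.v P ≤ g.v (P.map (algebraMap H L)) →
    ∃ w : Ber H L[X], Over w z ∧ w.v (X - C a) ≤ ρ

/-- (T2) -/
def StmtT2 : Prop := ∀ (H : Type) [NormedField H] [IsUltrametricDist H] [CompleteSpace H]
  (P : H[X]), Irreducible P → ∀ t : ℝ, 0 ≤ t → ∃ e, IsDisc P t e

/-- (T3) -/
def StmtT3 : Prop := ∀ (H : Type) [NormedField H] [IsUltrametricDist H] [CompleteSpace H]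
  (P : H[X]), Irreducible P → ∀ z e : Ber H H[X], z ≤ e → z.v P < e.v P → IsDisc P (e.v P) e

/-- (T4)-(T7) -/
structure StmtTree : Prop where
  /-- (T3a) two comparable points are separated by an irreducible polynomial. -/
  sep : ∀ (H : Type) [NormedField H] [IsUltrametricDist H] [CompleteSpace H]
    (z e : Ber H H[X]), z < e → ∃ P : H[X], P.Monic ∧ Irreducible P ∧ z.v P < e.v P ∧
      IsDisc P (e.v P) e
  /-- (T3b) there is a point between two comparable points. -/
  between : ∀ (H : Type) [NormedField H] [IsUltrametricDist H] [CompleteSpace H]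
    (z e : Ber H H[X]), z < e → ∃ m, z < m ∧ m < e
  /-- (T4) discs are nested or disjoint. -/
  comp : ∀ (H : Type) [NormedField H] [IsUltrametricDist H] [CompleteSpace H]
    (z e₁ e₂ : Ber H H[X]), z ≤ e₁ → z ≤ e₂ → e₁ ≤ e₂ ∨ e₂ ≤ e₁
  /-- (T5) -/
  isOpen : ∀ (H : Type) [NormedField H] [IsUltrametricDist H] [CompleteSpace H]
    (e : Ber H H[X]), IsOpen (Set.Iio e)
  /-- (T6) -/
  star : ∀ (H : Type) [NormedField H] [IsUltrametricDist H] [CompleteSpace H]
    (e : Ber H H[X]) (D : Set (Ber H H[X])), IsClosed D → D ⊆ Set.Iic e → e ∈ D →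
    (∀ z ∈ D, z ≠ e → Set.Iic z ⊆ D) → (∀ z ∈ D, ∀ w, z ≤ w → w ≤ e → w ∈ D) →
    ∀ W ∈ 𝓝 e, ∃ S : Finset (Ber H H[X]), (∀ s ∈ S, s < e ∧ s ∈ D) ∧
      (∀ s ∈ S, ∀ t ∈ S, s ≠ t → Disjoint (Set.Iic s) (Set.Iic t)) ∧
      D \ (⋃ s ∈ S, Set.Iio s) ⊆ W
  /-- (T7) -/
  circle : ∀ (H : Type) [NormedField H] [IsUltrametricDist H] [CompleteSpace H] (r : ℝ)
    (η e z : Ber H H[X]), IsDisc X r η → e.v X = r → e ≠ η → z ≤ e → z.v X = r
  /-- (T8) every point lies in a disc `{|X| ≤ r}`; a point which is minimal for the order is the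
  infimum of the points above it. -/
  inf : ∀ (H : Type) [NormedField H] [IsUltrametricDist H] [CompleteSpace H]
    (z : Ber H H[X]) (r : ℝ), z.v X ≤ r → ∃ η, IsDisc X r η ∧ z ≤ η

end Pool.Agent.TD
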