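import Pool.Agent.TD.T.Stmts

/-!
# Block T: closed points of `M(H[X])` (T_CLP, MP_90358a_ag)

An irreducible polynomial vanishes at exactly one point of the Berkovich affine line.
-/

open scoped Topology
open Polynomial

namespace Pool.Agent.TD

namespace T_CLP

variable {H : Type} [NormedField H]

/-- In a field only `0` has absolute value `0`. -/
theorem v_eq_zero_iff {L : Type} [Field L] [Algebra H L] (N : Ber H L) (x : L) :
    N.v x = 0 ↔ x = 0 := by
  constructor
  · intro h
    by_contra hx
    have h1 : N.v (x * x⁻¹) = 1 := by rw [mul_inv_cancel₀ hx, N.one]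
    rw [N.mul, h, zero_mul] at h1
    exact zero_ne_one h1
  · rintro rfl
    exact N.zero

/-- If `|P| = 0` then the value of `f` only depends on the class of `f` modulo `P`. -/
theorem v_congr {P : H[X]} (z : Ber H H[X]) (hz : z.v P = 0) {f g : H[X]}
    (hfg : AdjoinRoot.mk P f = AdjoinRoot.mk P g) : z.v f = z.v g := by
  rw [AdjoinRoot.mk_eq_mk] at hfg
  obtain ⟨q, hq⟩ := hfg
  have h0 : z.v (f - g) = 0 := by rw [hq, z.mul, hz, zero_mul]
  have h0' : z.v (g - f) = 0 := by rw [z.sub_comm, h0]
  apply le_antisymm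
  · have h1 := z.add g (f - g)
    rw [add_sub_cancel, h0, max_eq_left (z.nonneg g)] at h1
    exact h1
  · have h1 := z.add f (g - f)
    rw [add_sub_cancel, h0', max_eq_left (z.nonneg f)] at h1
    exact h1

/-- A polynomial in the class `x`. -/
noncomputable def rep (P : H[X]) (x : AdjoinRoot P) : H[X] :=
  Function.surjInv (AdjoinRoot.mk_surjective (g := P)) x

theorem mk_rep (P : H[X]) (x : AdjoinRoot P) : AdjoinRoot.mk P (rep P x) = x :=
  Function.surjInv_eq (AdjoinRoot.mk_surjective (g := P)) x

/-- The point of the spectrum of `H[X]/(P)` given by a point at which `P` vanishes. -/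
noncomputable def desc (P : H[X]) (z : Ber H H[X]) (hz : z.v P = 0) : Ber H (AdjoinRoot P) where
  v x := z.v (rep P x)
  nonneg x := z.nonneg _
  one := by
    rw [← z.one]
    refine v_congr z hz ?_
    rw [mk_rep, map_one]
  mul x y := by
    rw [← z.mul]
    refine v_congr z hz ?_
    rw [mk_rep, map_mul, mk_rep, mk_rep]
  add x y := by
    have h1 := z.add (rep P x)
      (rep P y)
    refine le_trans (le_of_eq (v_congr z hz ?_)) h1
    rw [mk_rep, map_add, mk_rep, mk_rep]
  ext c := by
    rw [← z.ext c]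
    refine v_congr z hz ?_
    rw [mk_rep]
    rfl

theorem desc_mk (P : H[X]) (z : Ber H H[X]) (hz : z.v P = 0) (f : H[X]) :
    (desc P z hz).v (AdjoinRoot.mk P f) = z.v f := by
  refine v_congr z hz ?_
  rw [mk_rep]

/-- The restriction of a point of the spectrum of `H[X]/(P)` to `H[X]`. -/
noncomputable def asc (P : H[X]) (N : Ber H (AdjoinRoot P)) : Ber H H[X] where
  v f := N.v (AdjoinRoot.mk P f)
  nonneg f := N.nonneg _
  one := by rw [map_one, N.one]
  mul f g := by rw [map_mul, N.mul]
  add f g := by rw [map_add]; exact N.add _ _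
  ext c := N.ext c

theorem asc_v (P : H[X]) (N : Ber H (AdjoinRoot P)) (f : H[X]) :
    (asc P N).v f = N.v (AdjoinRoot.mk P f) := rfl

end T_CLP

open T_CLP in
/-- (CLP) closed points: an irreducible polynomial vanishes at exactly one point. -/
theorem td_clp (hExt : StmtExt) : StmtClp := by
  intro H _ _ _ P hP
  have : Fact (Irreducible P) := ⟨hP⟩
  have : Module.Finite H (AdjoinRoot P) := (AdjoinRoot.powerBasis hP.ne_zero).finite
  obtain ⟨N, hN⟩ := hExt H (AdjoinRoot P)
  have h0 : (asc P N).v P = 0 := by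
    rw [asc_v, AdjoinRoot.mk_self, v_eq_zero_iff]
  have huniq : ∀ z : Ber H H[X], z.v P = 0 → z = asc P N := by
    intro z hz
    refine Ber.ext_v fun f => ?_
    rw [asc_v, ← hN (desc P z hz), desc_mk]
  refine ⟨asc P N, h0, huniq, ?_, ?_⟩
  · intro z hz
    refine huniq z (le_antisymm ?_ (z.nonneg P))
    rw [← h0]
    exact hz P
  · intro f
    rw [asc_v, v_eq_zero_iff, AdjoinRoot.mk_eq_zero]

end Pool.Agent.TD
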